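import Mathlib
import Pool.Agent.H36.OrderProb
import Pool.Agent.H36.Grid24

/-!
# Balanced splittability of random spanning trees: the grid `P_2 □ P_4`

On the grid graph `P_2 □ P_4` the random minimum spanning tree is splittable into two equal halves
with probability `248/315`, the uniform spanning tree only with probability `11/14 < 248/315`.
-/

set_option linter.constructorNameAsVariable false

open SimpleGraph MeasureTheory Pool.Agent.H36.MST

namespace Pool.Agent.Results.MP_ddaf7c_pr.GridSplitting

/-- The probability that the uniform spanning tree of `G` is splittable: the number of splittable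
spanning trees divided by the number of spanning trees. -/
noncomputable def pUST {V : Type} (G : SimpleGraph V) : ℝ :=
  (Nat.card {T : SimpleGraph V // IsSpanningTree G T ∧ Splittable T} : ℝ) /
    (Nat.card {T : SimpleGraph V // IsSpanningTree G T} : ℝ)

open scoped Classical in
/-- The law of i.i.d. edge weights, uniform on `[0,1]`. -/
noncomputable def weightLaw {V : Type} [Fintype V] (G : SimpleGraph V) :
    Measure (G.edgeSet → ℝ) :=
  Measure.pi fun _ : G.edgeSet => (volume : Measure ℝ).restrict (Set.Icc 0 1)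

/-- The probability that the random minimum spanning tree of `G` is splittable, for i.i.d. edge
weights, uniform on `[0,1]`. -/
noncomputable def pMST {V : Type} [Fintype V] (G : SimpleGraph V) : ℝ :=
  (weightLaw G).real {w | ∃ T, IsMST G w T ∧ Splittable T}

open Pool.Agent.H36

lemma pUST_grid : pUST (pathGraph 2 □ pathGraph 4) = 11 / 14 := by
  unfold pUST
  have h1 := Grid24.card_trees
  have h2 := Grid24.card_split_trees
  rw [Grid24.n_trees] at h1
  rw [Grid24.n_split_trees] at h2
  unfold Grid24.G at h1 h2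
  rw [h1, h2]
  norm_num

/-- the invariant of Kruskal's algorithm -/
lemma inv (T : SimpleGraph Grid24.V) (w : Grid24.G.edgeSet → ℝ) (hw : Function.Injective w)
    (hT : IsMST Grid24.G w T) : ∀ (l : List (Fin 10)) (m : ℕ),
    l.Pairwise (fun i j => w (Grid24.eps i) < w (Grid24.eps j)) →
    (∀ i : Fin 10, m.testBit i.val = true ↔ (i ∉ l ∧ (Grid24.eps i).1 ∈ T.edgeSet)) →
    (∀ i, i ∉ l → ∀ j ∈ l, w (Grid24.eps i) < w (Grid24.eps j)) →
    ∀ i : Fin 10, (Ords.kr Grid24.cross Grid24.ins m l).testBit i.val = true ↔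
      (Grid24.eps i).1 ∈ T.edgeSet := by
  intro l
  induction l with
  | nil =>
    intro m _ h2 _ i
    simp only [Ords.kr]
    rw [h2 i]
    simp
  | cons x l ih =>
    intro m h1 h2 h3
    rw [List.pairwise_cons] at h1
    have hxl : x ∉ l := fun h => lt_irrefl _ (h1.1 x h)
    have hle : Grid24.gm m ≤ T := by
      intro p q hpq
      obtain ⟨i, hi⟩ := Grid24.eps.surjective ⟨s(p, q), Grid24.gm_le m hpq⟩
      have h4 : (Grid24.eps i).1 = s(p, q) := congrArg Subtype.val hi
      have h5 : (Grid24.eps i).1 ∈ (Grid24.gm m).edgeSet := by rw [h4]; exact hpq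
      rw [Grid24.gm_mem, h2 i, h4] at h5
      exact h5.2
    have hx : (Grid24.eps x).1 ∈ T.edgeSet ↔ x ∈ Grid24.cross m := by
      rw [Grid24.mem_cross, Grid24.eps_val, mem_edgeSet]
      apply mst_mem_iff Grid24.G T w hw hT (Grid24.ed_adj x) (Grid24.gm m) hle
      intro f hf
      obtain ⟨j, rfl⟩ := Grid24.eps.surjective f
      rw [Grid24.gm_mem, h2 j]
      constructor
      · rintro ⟨h4, _⟩
        exact h3 j h4 x List.mem_cons_self
      · intro h4
        refine ⟨fun h5 => ?_, hf⟩
        rw [List.mem_cons] at h5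
        rcases h5 with rfl | h5
        · exact lt_irrefl _ h4
        · exact lt_irrefl _ (h4.trans (h1.1 j h5))
    have h3' : ∀ i, i ∉ l → ∀ j ∈ l, w (Grid24.eps i) < w (Grid24.eps j) := by
      intro i hi j hj
      by_cases hix : i = x
      · subst hix
        exact h1.1 j hj
      · exact h3 i (fun h => (List.mem_cons.mp h).elim hix hi) j (List.mem_cons_of_mem _ hj)
    simp only [Ords.kr]
    by_cases hc : x ∈ Grid24.cross m
    · rw [if_pos hc]
      apply ih _ h1.2 _ h3'
      intro i
      rw [Grid24.testBit_ins, h2 i]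
      constructor
      · rintro (⟨h4, h5⟩ | rfl)
        · exact ⟨fun h => h4 (List.mem_cons_of_mem _ h), h5⟩
        · exact ⟨hxl, hx.mpr hc⟩
      · rintro ⟨h4, h5⟩
        by_cases hix : i = x
        · exact Or.inr hix
        · exact Or.inl ⟨fun h => (List.mem_cons.mp h).elim hix h4, h5⟩
    · rw [if_neg hc]
      apply ih _ h1.2 _ h3'
      intro i
      rw [h2 i]
      constructor
      · rintro ⟨h4, h5⟩
        exact ⟨fun h => h4 (List.mem_cons_of_mem _ h), h5⟩
      · rintro ⟨h4, h5⟩
        refine ⟨fun h => ?_, h5⟩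
        rcases List.mem_cons.mp h with rfl | h
        · exact hc (hx.mp h5)
        · exact h4 h

/-- the order of the edges as a list -/
noncomputable def lst (σ : Fin 10 ≃ Grid24.G.edgeSet) : List (Fin 10) :=
  List.ofFn (fun i => Grid24.eps.symm (σ i))

lemma mem_lst (σ : Fin 10 ≃ Grid24.G.edgeSet) (i : Fin 10) : i ∈ lst σ := by
  unfold lst
  rw [List.mem_ofFn]
  exact ⟨σ.symm (Grid24.eps i), by simp⟩

lemma G_connected : Grid24.G.Connected := by
  have h : Grid24.gr ((List.finRange 10).map Grid24.ed) ≤ Grid24.G := Grid24.gr_le _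
  refine SimpleGraph.Connected.mono h ?_
  rw [Grid24.connb_iff]
  decide +kernel

lemma event_iff (σ : Fin 10 ≃ Grid24.G.edgeSet) (w : Grid24.G.edgeSet → ℝ)
    (h : StrictMono (w ∘ σ)) :
    (w ∈ {w | ∃ T, IsMST Grid24.G w T ∧ Splittable T} ↔
      Grid24.splitb (Grid24.el (Ords.kr Grid24.cross Grid24.ins 0 (lst σ))) = true) := by
  have hw : Function.Injective w := by
    have h3 : Function.Injective (w ∘ σ) := StrictMono.injective h
    intro a b hab
    have := @h3 (σ.symm a) (σ.symm b) (by simpa using hab)
    exact σ.symm.injective this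
  have key : ∀ T, IsMST Grid24.G w T →
      T = Grid24.gm (Ords.kr Grid24.cross Grid24.ins 0 (lst σ)) := by
    intro T hT
    apply Grid24.eq_of_mem hT.1.1 (Grid24.gm_le _)
    intro i
    rw [Grid24.gm_mem]
    symm
    apply inv T w hw hT
    · unfold lst
      rw [List.pairwise_ofFn]
      intro i j hij
      simpa using h hij
    · intro i
      simp [mem_lst]
    · intro i hi
      exact absurd (mem_lst σ i) hi
  rw [Set.mem_setOf_eq, ← Grid24.split_iff]
  constructor
  · rintro ⟨T, hT, hs⟩
    rw [key T hT] at hs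
    exact hs
  · intro hs
    obtain ⟨T, hT⟩ := exists_mst Grid24.G G_connected w
    refine ⟨T, hT, ?_⟩
    rw [key T hT]
    exact hs

open scoped Classical in
lemma count_orderings (P : List (Fin 10) → Prop) [DecidablePred P] :
    ((Finset.univ.filter (fun σ : Fin 10 ≃ Grid24.G.edgeSet => P (lst σ))).card : ℚ)
      = ∑ l ∈ Ords.ords 10 (Finset.univ : Finset (Fin 10)), if P l then (1 : ℚ) else 0 := by
  rw [Finset.card_filter, Nat.cast_sum]
  refine Finset.sum_bij (fun σ _ => lst σ) ?_ ?_ ?_ ?_
  · intro σ _
    rw [Ords.mem_ords]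
    refine ⟨by simp [lst], ?_, fun x _ => Finset.mem_univ x⟩
    unfold lst
    rw [List.nodup_ofFn]
    exact (Grid24.eps.symm.injective).comp σ.injective
  · intro σ _ τ _ he
    unfold lst at he
    have h1 := List.ofFn_injective he
    apply Equiv.ext
    intro i
    exact Grid24.eps.symm.injective (congrFun h1 i)
  · intro l hl
    rw [Ords.mem_ords] at hl
    obtain ⟨h1, h2, _⟩ := hl
    let f : Fin 10 → Fin 10 := fun i => l.get (i.cast h1.symm)
    have hf : Function.Injective f := by
      intro i j hij
      have := (List.nodup_iff_injective_get.mp h2) hij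
      simpa [Fin.ext_iff] using this
    have hb : Function.Bijective f := Finite.injective_iff_bijective.mp hf
    refine ⟨(Equiv.ofBijective f hb).trans Grid24.eps, Finset.mem_univ _, ?_⟩
    unfold lst
    have : (fun i => Grid24.eps.symm (((Equiv.ofBijective f hb).trans Grid24.eps) i)) = f := by
      funext i
      simp
    rw [this]
    apply List.ext_get
    · simp [h1]
    · intro n h3 h4
      rw [List.get_ofFn]
      rfl
  · intro σ _
    push_cast
    rfl

lemma pMST_grid : pMST (pathGraph 2 □ pathGraph 4) = 248 / 315 := by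
  classical
  change (weightLaw Grid24.G).real {w | ∃ T, IsMST Grid24.G w T ∧ Splittable T} = 248 / 315
  have hlaw : weightLaw Grid24.G = OrderProb.unifLaw Grid24.G.edgeSet := by
    unfold weightLaw OrderProb.unifLaw
    congr!
  rw [hlaw, OrderProb.order_prob Grid24.eps _ (fun σ =>
    Grid24.splitb (Grid24.el (Ords.kr Grid24.cross Grid24.ins 0 (lst σ))) = true)
    (fun σ w h => event_iff σ w h)]
  have h1 := count_orderings (fun l =>
    Grid24.splitb (Grid24.el (Ords.kr Grid24.cross Grid24.ins 0 l)) = true)
  have h2 := Grid24.kruskal_total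
  unfold Grid24.g at h2
  rw [h2] at h1
  have h3 : ((Finset.univ.filter (fun σ : Fin 10 ≃ Grid24.G.edgeSet =>
    Grid24.splitb (Grid24.el (Ords.kr Grid24.cross Grid24.ins 0 (lst σ))) = true)).card : ℝ)
      = (Nat.factorial 10 : ℝ) * (248 / 315) := by
    have h5 := congrArg (fun q : ℚ => (q : ℝ)) h1
    simp only [Rat.cast_natCast, Rat.cast_mul, Rat.cast_div, Rat.cast_ofNat] at h5
    convert h5
  have h4 : (Nat.factorial 10 : ℝ) ≠ 0 := by positivity
  rw [div_eq_iff h4, ← mul_comm (Nat.factorial 10 : ℝ), ← h3]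

/-- Q2 has a negative answer: on the grid `P_2 □ P_4`, `p_UST = 11/14 < 248/315 = p_MST`. -/
theorem result : pUST (pathGraph 2 □ pathGraph 4) = 11 / 14 ∧
    pMST (pathGraph 2 □ pathGraph 4) = 248 / 315 ∧
    ¬ (∀ a b : ℕ, 1 ≤ a → 1 ≤ b → Even (a * b) →
      pMST (pathGraph a □ pathGraph b) ≤ pUST (pathGraph a □ pathGraph b)) := by
  refine ⟨pUST_grid, pMST_grid, fun h => ?_⟩
  have := h 2 4 (by norm_num) (by norm_num) (by decide)
  rw [pUST_grid, pMST_grid] at this
  norm_num at this

end Pool.Agent.Results.MP_ddaf7c_pr.GridSplitting
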